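import Pool.Agent.Helper91.PP.PSEP
import Pool.Agent.Helper38.WY.Goals2

/-!
# Project WY (MP_fc6b1e_nt), packet WY-Y_ABS: linear algebra

Statement of Helper38.
-/

set_option autoImplicit false

namespace Pool.Agent.Helper69.WY

open Polynomial Module Pool.Agent.Helper51.RP Pool.Agent.Helper42.PP Pool.Agent.Helper91.PP

section abs

variable {p : ℕ} [Fact p.Prime] {V : Type} [AddCommGroup V] [Module (ZMod p)[X] V]
  {P : (ZMod p)[X]}

/-- A section of `(ZMod p)[X] → AdjoinRoot P`. -/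
noncomputable def lift (P : (ZMod p)[X]) : AdjoinRoot P → (ZMod p)[X] :=
  Function.surjInv AdjoinRoot.mk_surjective

lemma mk_lift (a : AdjoinRoot P) : AdjoinRoot.mk P (lift P a) = a :=
  Function.surjInv_eq AdjoinRoot.mk_surjective a

lemma smul_congr (c d : (ZMod p)[X]) (v : V) (hv : P • v = 0) (h : P ∣ c - d) :
    c • v = d • v := by
  obtain ⟨r, hr⟩ := h
  have h1 : (c - d) • v = 0 := by rw [hr, mul_comm, mul_smul, hv, smul_zero]
  rw [sub_smul] at h1
  exact sub_eq_zero.mp h1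

lemma fin_κ (hP : Irreducible P) : Finite (AdjoinRoot P) := by
  refine Nat.finite_of_card_ne_zero ?_
  rw [cardK hP]; exact pow_ne_zero _ (Fact.out : p.Prime).ne_zero

lemma fin_span (hP : Irreducible P) (S : Finset V) (hS : ∀ s ∈ S, P • s = 0) :
    Finite (Submodule.span (ZMod p)[X] (S : Set V)) := by
  classical
  have := fin_κ hP
  let g : (V → AdjoinRoot P) → V := fun a => ∑ s ∈ S, lift P (a s) • s
  let g' : (S → AdjoinRoot P) → V := fun a => ∑ s ∈ S.attach, lift P (a s) • (s : V)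
  have hsub : ((Submodule.span (ZMod p)[X] (S : Set V) : Submodule _ V) : Set V) ⊆
      Set.range g' := by
    intro x hx
    obtain ⟨f, -, hf⟩ := Submodule.mem_span_finset.mp hx
    refine ⟨fun s => AdjoinRoot.mk P (f s), ?_⟩
    rw [← hf, ← Finset.sum_attach]
    refine Finset.sum_congr rfl fun s _ => ?_
    refine smul_congr _ _ _ (hS s s.2) ?_
    rw [← AdjoinRoot.mk_eq_mk, mk_lift]
  exact (Set.finite_range g').subset hsub

lemma abs_count (hP : Irreducible P) (e a : (ZMod p)[X]) (he : e = 1 - a * P)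
    (heP : ∀ v : V, (P * e) • v = 0) (Vs Vx : Submodule (ZMod p)[X] V) (n b : ℕ)
    (F : Finset V) (hF : F.card = p ^ (P.natDegree * n)) (hF1 : ∀ x ∈ F, P • x ∈ Vs)
    (hF2 : ∀ x ∈ F, ∀ y ∈ F, x ≠ y → x - y ∉ Vs)
    (ξ : Fin b → V) (hξ : ∀ i, ξ i ∈ Vs ∧ P • ξ i = 0)
    (hi : ∀ U : Fin b → (ZMod p)[X], ∑ i, U i • ξ i = 0 → ∀ i, P ∣ U i)
    (hx : ∀ A : Finset V, (∀ x ∈ A, x ∈ Vx ∧ P • x = 0) → A.card ≤ p ^ (P.natDegree * b)) :
    ∃ B : Finset V, B.card = p ^ (P.natDegree * n) ∧ (∀ x ∈ B, P • x = 0) ∧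
      ∀ x ∈ B, ∀ y ∈ B, x ≠ y → x - y ∉ Vx := by
  classical
  have hfin := fin_κ hP
  have hp1 : 1 < p := (Fact.out : p.Prime).one_lt
  -- `e • x` is congruent to `x`
  have hecong : ∀ x ∈ F, e • x - x ∈ Vs := by
    intro x hxF
    have : e • x - x = -(a • (P • x)) := by
      rw [he, sub_smul, one_smul, mul_smul]; abel
    rw [this]
    exact Vs.neg_mem (Vs.smul_mem _ (hF1 x hxF))
  set S : Finset V := F.image (fun x => e • x) ∪ Finset.univ.image ξ with hSdef
  have hS : ∀ s ∈ S, P • s = 0 := by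
    intro s hs
    rcases Finset.mem_union.mp hs with h | h
    · obtain ⟨x, -, rfl⟩ := Finset.mem_image.mp h
      rw [smul_smul]; exact heP x
    · obtain ⟨i, -, rfl⟩ := Finset.mem_image.mp h
      exact (hξ i).2
  set W : Submodule (ZMod p)[X] V := Submodule.span (ZMod p)[X] (S : Set V) with hW
  have hfW : Finite W := fin_span hP S hS
  have hWP : ∀ w ∈ W, P • w = 0 := by
    intro w hw
    refine Submodule.span_induction (p := fun w _ => P • w = 0) (fun x hx => hS x hx)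
      (smul_zero _) (fun x y _ _ h1 h2 => by rw [smul_add, h1, h2, add_zero])
      (fun c x _ h => by rw [smul_comm, h, smul_zero]) hw
  -- the injection
  have hmem : ∀ (u : (Fin b → AdjoinRoot P) × F),
      ∑ i, lift P (u.1 i) • ξ i + e • (u.2 : V) ∈ W := by
    intro u
    refine W.add_mem (W.sum_mem fun i _ => W.smul_mem _ (Submodule.subset_span ?_))
      (Submodule.subset_span ?_)
    · exact Finset.mem_coe.mpr (Finset.mem_union_right _
        (Finset.mem_image_of_mem _ (Finset.mem_univ i)))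
    · exact Finset.mem_coe.mpr (Finset.mem_union_left _ (Finset.mem_image_of_mem _ u.2.2))
  let Φ : (Fin b → AdjoinRoot P) × F → W := fun u => ⟨_, hmem u⟩
  have hΦ : Function.Injective Φ := by
    rintro ⟨u, x⟩ ⟨u', x'⟩ h
    have h1 : ∑ i, lift P (u i) • ξ i + e • (x : V) = ∑ i, lift P (u' i) • ξ i + e • (x' : V) :=
      congrArg Subtype.val h
    have hs : ∀ u : Fin b → AdjoinRoot P, ∑ i, lift P (u i) • ξ i ∈ Vs := fun u =>
      Vs.sum_mem fun i _ => Vs.smul_mem _ (hξ i).1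
    have hxx : x = x' := by
      by_contra hne
      refine hF2 x x.2 x' x'.2 (fun h => hne (Subtype.ext h)) ?_
      have h2 : (x : V) - x' = (∑ i, lift P (u' i) • ξ i - ∑ i, lift P (u i) • ξ i) -
          (e • (x : V) - x) + (e • (x' : V) - x') := by
        have h3 : ∑ i, lift P (u' i) • ξ i - ∑ i, lift P (u i) • ξ i = e • (x : V) - e • (x' : V) := by
          rw [sub_eq_sub_iff_add_eq_add, ← h1]; abel
        rw [h3]; abel
      rw [h2]
      exact Vs.add_mem (Vs.sub_mem (Vs.sub_mem (hs _) (hs _)) (hecong _ x.2)) (hecong _ x'.2)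
    subst hxx
    have h2 : ∑ i, (lift P (u i) - lift P (u' i)) • ξ i = 0 := by
      simp only [sub_smul, Finset.sum_sub_distrib]
      rw [sub_eq_zero]
      exact add_right_cancel h1
    have h3 := hi _ h2
    have h4 : u = u' := by
      funext i
      have h5 := h3 i
      rw [← AdjoinRoot.mk_eq_mk, mk_lift, mk_lift] at h5
      exact h5
    rw [h4]
  have hcW : p ^ (P.natDegree * b) * p ^ (P.natDegree * n) ≤ Nat.card W := by
    have h1 := Nat.card_le_card_of_injective Φ hΦ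
    rw [Nat.card_prod, Nat.card_fun, cardK hP, Nat.card_eq_fintype_card (α := Fin b),
      Fintype.card_fin, ← pow_mul, Nat.card_eq_fintype_card, Fintype.card_coe, hF] at h1
    exact h1
  -- the part in `Vx`
  let Wx : Submodule (ZMod p)[X] W := Vx.comap W.subtype
  have hcx : Nat.card Wx ≤ p ^ (P.natDegree * b) := by
    have hf : Finite Wx := inferInstance
    have := Fintype.ofFinite Wx
    have h1 := hx ((Finset.univ : Finset Wx).image fun w : Wx => ((w : W) : V)) (by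
      intro x hxx
      obtain ⟨w, -, rfl⟩ := Finset.mem_image.mp hxx
      exact ⟨w.2, hWP _ (w : W).2⟩)
    rw [Finset.card_image_of_injective _
      (fun w w' h => Subtype.ext (Subtype.ext h)), Finset.card_univ] at h1
    rw [Nat.card_eq_fintype_card]
    exact h1
  have hcq : p ^ (P.natDegree * n) ≤ Nat.card (W ⧸ Wx) := by
    have h1 := Submodule.card_eq_card_quotient_mul_card Wx
    have h2 : p ^ (P.natDegree * b) * p ^ (P.natDegree * n) ≤
        p ^ (P.natDegree * b) * Nat.card (W ⧸ Wx) := by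
      calc _ ≤ Nat.card W := hcW
        _ = _ := h1
        _ ≤ _ := Nat.mul_le_mul_right _ hcx
    exact Nat.le_of_mul_le_mul_left h2 (pow_pos (by omega) _)
  have hfq : Finite (W ⧸ Wx) := Finite.of_surjective Wx.mkQ Wx.mkQ_surjective
  have := Fintype.ofFinite (W ⧸ Wx)
  rw [Nat.card_eq_fintype_card, ← Finset.card_univ] at hcq
  obtain ⟨B', -, hB'⟩ := Finset.exists_subset_card_eq hcq
  let out : W ⧸ Wx → V := fun z => ((Function.surjInv Wx.mkQ_surjective z : W) : V)
  have hout : ∀ z, Wx.mkQ (Function.surjInv Wx.mkQ_surjective z) = z :=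
    fun z => Function.surjInv_eq Wx.mkQ_surjective z
  have hdist : ∀ z z' : W ⧸ Wx, out z - out z' ∈ Vx → z = z' := by
    intro z z' h
    rw [← hout z, ← hout z', Submodule.mkQ_apply, Submodule.mkQ_apply,
      Submodule.Quotient.eq]
    exact h
  have hinj : Function.Injective out := by
    intro z z' h
    refine hdist z z' ?_
    rw [h, sub_self]
    exact Vx.zero_mem
  refine ⟨B'.image out, by rw [Finset.card_image_of_injective _ hinj, hB'], ?_, ?_⟩
  · intro x hxx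
    obtain ⟨z, -, rfl⟩ := Finset.mem_image.mp hxx
    exact hWP _ (Function.surjInv Wx.mkQ_surjective z : W).2
  · intro x hxx y hyy hne h
    obtain ⟨z, -, rfl⟩ := Finset.mem_image.mp hxx
    obtain ⟨z', -, rfl⟩ := Finset.mem_image.mp hyy
    exact hne (congrArg out (hdist z z' h))

/-- The idempotent. -/
lemma idem {m : ℕ} (hm : m.Coprime p) (hd : P ∣ X ^ m - 1) :
    ∃ e a c : (ZMod p)[X], e = 1 - a * P ∧ P * e = c * (X ^ m - 1) := by
  obtain ⟨R, hR⟩ := hd
  have hsep : (X ^ m - 1 : (ZMod p)[X]).Separable := by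
    have h : ((m : ℕ) : ZMod p) ≠ 0 := by
      intro h
      rw [ZMod.natCast_eq_zero_iff] at h
      have h2 : p ∣ 1 := by rw [← Nat.Coprime.gcd_eq_one hm]; exact Nat.dvd_gcd h dvd_rfl
      exact (Fact.out : p.Prime).one_lt.ne' (Nat.dvd_one.mp h2)
    simpa using Polynomial.separable_X_pow_sub_C (1 : ZMod p) h one_ne_zero
  have hc : IsCoprime P R := by
    rw [hR] at hsep
    exact hsep.isCoprime
  obtain ⟨a, b, hab⟩ := hc
  refine ⟨b * R, a, b, by rw [← hab]; ring, by rw [hR]; ring⟩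

end abs

section grp

variable {p : ℕ} [Fact p.Prime] {K M : Type} [Field K] [Field M] [Algebra K M]

lemma act_pow_mem (δ : M ≃ₐ[K] M) (G : Subgroup Mˣ) (hs : ∀ x ∈ G, act δ x ∈ G) (j : ℕ)
    (x : Mˣ) (hx : x ∈ G) : act (δ ^ j) x ∈ G := by
  induction j with
  | zero => exact hx
  | succ j ih => rw [act_pow_succ]; exact hs _ ih

lemma pol_mem (c : (ZMod p)[X]) (δ : M ≃ₐ[K] M) (G : Subgroup Mˣ)
    (hs : ∀ x ∈ G, act δ x ∈ G) (x : Mˣ) (hx : x ∈ G) : pol c δ x ∈ G := by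
  rw [pol_apply]
  exact G.prod_mem fun j _ => G.pow_mem (act_pow_mem δ G hs j x hx) _

/-- The module structure on the quotient. -/
lemma ex_str (δ : M ≃ₐ[K] M) (G : Subgroup Mˣ) (hG : ∀ x : Mˣ, x ^ p ∈ G)
    (hs : ∀ x ∈ G, act δ x ∈ G) :
    ∃ _i : Module (ZMod p)[X] (VG G),
      (∀ (c : (ZMod p)[X]) (x : Mˣ), cls G (pol c δ x) = c • cls G x) ∧
      ∀ x, (X : (ZMod p)[X]) • cls G x = cls G (act δ x) := by
  have hp0 : ∀ v : VG G, p • v = 0 := by
    intro v
    obtain ⟨x, rfl⟩ := cls_surj G v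
    rw [← cls_pow, cls_eq_zero]
    exact hG _
  let i1 : Module (ZMod p) (VG G) := AddCommGroup.zmodModule hp0
  obtain ⟨T, hT⟩ := ex_aux (p := p) δ G hs
  obtain ⟨i2, hsm⟩ := ex_mod (p := p) G T
  refine ⟨i2, fun c x => ?_, fun x => ?_⟩
  · exact (cls_pol (p := p) δ G T hT c x).trans (hsm c _).symm
  · exact (hsm _ _).trans (by rw [aeval_X, hT])

lemma tors (δ : M ≃ₐ[K] M) (G : Subgroup Mˣ) [Module (ZMod p)[X] (VG G)]
    (hX : ∀ x, (X : (ZMod p)[X]) • cls G x = cls G (act δ x)) {m : ℕ} (hδ : δ ^ m = 1)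
    (v : VG G) : (X ^ m - 1 : (ZMod p)[X]) • v = 0 := by
  obtain ⟨x, rfl⟩ := cls_surj G v
  have h : ∀ j : ℕ, (X ^ j : (ZMod p)[X]) • cls G x = cls G (act (δ ^ j) x) := by
    intro j
    induction j with
    | zero => rw [pow_zero, one_smul]; rfl
    | succ j ih => rw [pow_succ', mul_smul, ih, hX, ← act_pow_succ]
  rw [sub_smul, h, hδ, one_smul]
  exact sub_self _

lemma pw_aux (δ : M ≃ₐ[K] M) (P e c : (ZMod p)[X]) {m : ℕ} (hδ : δ ^ m = 1)
    (h : P * e = c * (X ^ m - 1)) (x : Mˣ) : Pw p (pol P δ (pol e δ x)) := by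
  let G : Subgroup Mˣ := (powMonoidHom p : Mˣ →* Mˣ).range
  have hG : ∀ x : Mˣ, x ^ p ∈ G := fun x => ⟨x, rfl⟩
  have hs : ∀ x ∈ G, act δ x ∈ G := by
    rintro x ⟨y, rfl⟩
    exact ⟨act δ y, (map_pow (act δ) y p).symm⟩
  obtain ⟨i, hc, hX⟩ := ex_str (p := p) δ G hG hs
  have h1 : cls G (pol P δ (pol e δ x)) = 0 := by
    rw [hc, hc, smul_smul, h, mul_smul, tors δ G hX hδ, smul_zero]
  obtain ⟨y, hy⟩ := (cls_eq_zero G _).mp h1
  exact ⟨y, hy.symm⟩

theorem y_abs : Pool.Agent.Helper38.WY.Y_ABS := by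
  intro p _ K M _ _ _ m δ P hm0 hm hδ hP hd Gf Gs Gx hGp hfs hfx hsf hss hsx n b hF hξ hx
  classical
  obtain ⟨e, a, c, he, hPe⟩ := idem hm hd
  obtain ⟨i, hc, hX⟩ := ex_str (p := p) δ Gf hGp hsf
  have ht := tors δ Gf hX hδ
  -- submodules
  have mem_iff : ∀ (G : Subgroup Mˣ), Gf ≤ G → ∀ x : Mˣ,
      (∃ y ∈ G, cls Gf y = cls Gf x) ↔ x ∈ G := by
    intro G hG x
    constructor
    · rintro ⟨y, hy, hyx⟩
      have h1 : cls Gf (y / x) = cls Gf y - cls Gf x := rfl
      rw [hyx, sub_self, cls_eq_zero] at h1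
      have h2 := G.mul_mem (G.inv_mem (hG h1)) hy
      rwa [inv_div, div_mul_cancel] at h2
    · intro h; exact ⟨x, h, rfl⟩
  let sub : ∀ (G : Subgroup Mˣ), (∀ x ∈ G, act δ x ∈ G) → Submodule (ZMod p)[X] (VG Gf) :=
    fun G hs =>
    { carrier := {v | ∃ y ∈ G, cls Gf y = v}
      add_mem' := by
        rintro _ _ ⟨x, hx, rfl⟩ ⟨y, hy, rfl⟩
        exact ⟨x * y, G.mul_mem hx hy, rfl⟩
      zero_mem' := ⟨1, G.one_mem, rfl⟩
      smul_mem' := by
        rintro c _ ⟨x, hx, rfl⟩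
        exact ⟨pol c δ x, pol_mem c δ G hs x hx, hc c x⟩ }
  have hsub : ∀ (G : Subgroup Mˣ) (hs : ∀ x ∈ G, act δ x ∈ G), Gf ≤ G → ∀ x : Mˣ,
      cls Gf x ∈ sub G hs ↔ x ∈ G := fun G hs hG x => mem_iff G hG x
  obtain ⟨F, hF, hF1, hF2⟩ := hF
  obtain ⟨ξ, hξ1, hξ2⟩ := hξ
  have hdiv : ∀ x y : Mˣ, cls Gf (x / y) = cls Gf x - cls Gf y := fun _ _ => rfl
  have hinj : Set.InjOn (cls Gf) (F : Set Mˣ) := by
    intro x hx y hy hxy
    by_contra hne
    refine hF2 x hx y hy hne (hfs ?_)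
    rw [← cls_eq_zero, hdiv, hxy, sub_self]
  obtain ⟨rep, hrep⟩ : ∃ rep : VG Gf → Mˣ, ∀ v, cls Gf (rep v) = v :=
    ⟨fun v => (cls_surj Gf v).choose, fun v => (cls_surj Gf v).choose_spec⟩
  obtain ⟨B, hB, hB1, hB2⟩ := abs_count (V := VG Gf) hP e a he
    (fun v => by rw [hPe, mul_smul, ht, smul_zero]) (sub Gs hss) (sub Gx hsx) n b
    (F.image (cls Gf)) (by rw [Finset.card_image_of_injOn hinj, hF])
    (by
      intro v hv
      obtain ⟨x, hxF, rfl⟩ := Finset.mem_image.mp hv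
      rw [← hc, hsub Gs hss hfs]
      exact hF1 x hxF)
    (by
      intro v hv w hw hne
      obtain ⟨x, hxF, rfl⟩ := Finset.mem_image.mp hv
      obtain ⟨y, hyF, rfl⟩ := Finset.mem_image.mp hw
      rw [← hdiv, hsub Gs hss hfs]
      exact hF2 x hxF y hyF (fun h => hne (congrArg _ h)))
    (fun i => cls Gf (ξ i))
    (fun i => ⟨(hsub Gs hss hfs _).mpr (hξ1 i).1, by
      rw [← hc, cls_eq_zero]
      obtain ⟨y, hy⟩ := (hξ1 i).2
      rw [hy]; exact hGp y⟩)
    (fun U hU => hξ2 U (by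
      rw [← cls_eq_zero, cls_prod, ← hU]
      exact Finset.sum_congr rfl fun i _ => hc _ _))
    (by
      intro A hA
      have hcl : ∀ v ∈ A, cls Gf (pol e δ (rep v)) = v := by
        intro v hv
        rw [hc, hrep, he, sub_smul, one_smul, mul_smul, (hA v hv).2, smul_zero, sub_zero]
      have hAinj : Set.InjOn (fun v => pol e δ (rep v)) (A : Set (VG Gf)) := by
        intro v hv w hw hvw
        rw [← hcl v hv, ← hcl w hw]
        exact congrArg _ hvw
      have h1 := hx (A.image fun v => pol e δ (rep v)) (by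
        intro x hxx
        obtain ⟨v, hv, rfl⟩ := Finset.mem_image.mp hxx
        refine ⟨pol_mem e δ Gx hsx _ ?_, pw_aux δ P e c hδ hPe _⟩
        rw [← hsub Gx hsx hfx, hrep]
        exact (hA v hv).1) (by
        intro x hxx y hyy hne h
        obtain ⟨v, hv, rfl⟩ := Finset.mem_image.mp hxx
        obtain ⟨w, hw, rfl⟩ := Finset.mem_image.mp hyy
        refine hne ?_
        rw [← cls_eq_zero, hdiv, hcl v hv, hcl w hw, sub_eq_zero] at h
        rw [h])
      rwa [Finset.card_image_of_injOn hAinj] at h1)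
  have hri : Function.Injective rep := by
    intro v w h
    rw [← hrep v, ← hrep w, h]
  refine ⟨B.image rep, by rw [Finset.card_image_of_injective _ hri, hB], ?_, ?_⟩
  · intro x hxx
    obtain ⟨v, hv, rfl⟩ := Finset.mem_image.mp hxx
    refine hfx ?_
    rw [← cls_eq_zero, hc, hrep]
    exact hB1 v hv
  · intro x hxx y hyy hne h
    obtain ⟨v, hv, rfl⟩ := Finset.mem_image.mp hxx
    obtain ⟨w, hw, rfl⟩ := Finset.mem_image.mp hyy
    refine hB2 v hv w hw (fun h => hne (congrArg _ h)) ?_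
    rw [← hsub Gx hsx hfx, hdiv, hrep, hrep] at h
    exact h

end grp

end Pool.Agent.Helper69.WY
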